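import Pool.Agent.W500.CS.Stm2

/-!
Project CQ (helper500, MP_46692b_an), part E7: a linear functional controlled by `μ` has a bounded
density.
-/

set_option autoImplicit false

open MeasureTheory Metric Set Filter Topology
open scoped InnerProductSpace

namespace Pool.Agent.W577.CQ

open Pool.Agent.W500.CS

section riesz

variable (μ : Measure ℂ) [IsFiniteMeasure μ]

theorem L2int (x : Lp ℝ 2 μ) : Integrable (fun z => x z) μ := (Lp.memLp x).integrable one_le_two

theorem L1_le : ∃ K : ℝ, 0 ≤ K ∧ ∀ x : Lp ℝ 2 μ, ∫ z, |x z| ∂μ ≤ K * ‖x‖ := by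
  refine ⟨(μ univ ^ (1 / (1 : ENNReal).toReal - 1 / (2 : ENNReal).toReal)).toReal,
    ENNReal.toReal_nonneg, fun x => ?_⟩
  have h1 := eLpNorm_le_eLpNorm_mul_rpow_measure_univ (p := 1) (q := 2) (μ := μ) one_le_two
    (Lp.aestronglyMeasurable x)
  have h2 : ∫ z, |x z| ∂μ = (eLpNorm x 1 μ).toReal := by
    rw [eLpNorm_one_eq_lintegral_enorm, ← integral_norm_eq_lintegral_enorm
      (Lp.aestronglyMeasurable x)]
    rfl
  have hfin : μ univ ^ (1 / (1 : ENNReal).toReal - 1 / (2 : ENNReal).toReal) ≠ ⊤ := by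
    apply ENNReal.rpow_ne_top_of_nonneg _ (measure_ne_top μ univ)
    norm_num
  rw [h2, Lp.norm_def, mul_comm, ← ENNReal.toReal_mul]
  exact ENNReal.toReal_mono (ENNReal.mul_ne_top (Lp.eLpNorm_ne_top x) hfin) h1

theorem bound_of_dual (y : Lp ℝ 2 μ) (C : ℝ) (hC : 0 ≤ C)
    (h : ∀ x : Lp ℝ 2 μ, ∫ z, x z * y z ∂μ ≤ C * ∫ z, |x z| ∂μ) : ∀ᵐ z ∂μ, |y z| ≤ C := by
  have hym : Measurable (fun z => y z) := (Lp.stronglyMeasurable y).measurable
  obtain ⟨f, hf⟩ : ∃ f : ℂ → ℝ, f = fun z => if C < y z then (1 : ℝ) else if y z < -C then -1 else 0 :=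
    ⟨_, rfl⟩
  have hfm : Measurable f := by
    rw [hf]
    exact Measurable.ite (measurableSet_lt measurable_const hym) measurable_const
      (Measurable.ite (measurableSet_lt hym measurable_const) measurable_const measurable_const)
  have hfb : ∀ z, |f z| ≤ 1 := by
    intro z
    rw [hf]
    dsimp only
    split_ifs <;> simp
  have hfL : MemLp f 2 μ := MemLp.of_bound hfm.aestronglyMeasurable 1
    (ae_of_all _ fun z => by rw [Real.norm_eq_abs]; exact hfb z)
  have hfi : Integrable f μ := hfL.integrable one_le_two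
  have h1 := h (hfL.toLp f)
  have e1 : ∫ z, (hfL.toLp f) z * y z ∂μ = ∫ z, f z * y z ∂μ := by
    apply integral_congr_ae
    filter_upwards [hfL.coeFn_toLp] with z hz
    rw [hz]
  have e2 : ∫ z, |(hfL.toLp f) z| ∂μ = ∫ z, |f z| ∂μ := by
    apply integral_congr_ae
    filter_upwards [hfL.coeFn_toLp] with z hz
    rw [hz]
  rw [e1, e2] at h1
  have i1 : Integrable (fun z => f z * y z) μ :=
    (L2int μ y).bdd_mul hfm.aestronglyMeasurable (c := 1)
      (ae_of_all _ fun z => by rw [Real.norm_eq_abs]; exact hfb z)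
  have i2 : Integrable (fun z => C * |f z|) μ := hfi.abs.const_mul C
  have hk0 : ∀ z, 0 ≤ f z * y z - C * |f z| := by
    intro z
    rw [hf]
    dsimp only
    split_ifs with a1 a2
    · simp
      linarith
    · simp
      linarith
    · simp
  have hint : ∫ z, (f z * y z - C * |f z|) ∂μ = 0 := by
    apply le_antisymm
    · rw [integral_sub i1 i2, integral_const_mul]
      linarith
    · exact integral_nonneg hk0
  have h3 := (integral_eq_zero_iff_of_nonneg hk0 (i1.sub i2)).mp hint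
  filter_upwards [h3] with z hz
  have hz' : f z * y z - C * |f z| = 0 := hz
  rw [hf] at hz'
  dsimp only at hz'
  split_ifs at hz' with a1 a2
  · simp at hz'
    linarith
  · simp at hz'
    linarith
  · rw [abs_le]
    constructor <;> linarith

theorem repr (𝒞 : Submodule ℝ (ℂ → ℝ)) (hmem : ∀ φ ∈ 𝒞, MemLp φ 2 μ) (T : 𝒞 →ₗ[ℝ] ℝ)
    (C : ℝ) (hC : 0 ≤ C) (hT : ∀ φ : 𝒞, |T φ| ≤ C * ∫ z, |φ.1 z| ∂μ) :
    ∃ p : ℂ → ℝ, Measurable p ∧ (∀ z, |p z| ≤ C) ∧ ∀ φ : 𝒞, T φ = ∫ z, φ.1 z * p z ∂μ := by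
  obtain ⟨K, hK0, hK⟩ := L1_le μ
  let Φ : 𝒞 →ₗ[ℝ] Lp ℝ 2 μ :=
    { toFun := fun φ => (hmem φ.1 φ.2).toLp φ.1
      map_add' := fun a b => MemLp.toLp_add (hmem a.1 a.2) (hmem b.1 b.2)
      map_smul' := fun c a => MemLp.toLp_const_smul c (hmem a.1 a.2) }
  have hΦ : ∀ φ : 𝒞, (Φ φ : ℂ → ℝ) =ᵐ[μ] φ.1 := fun φ => (hmem φ.1 φ.2).coeFn_toLp
  have hint : ∀ φ : 𝒞, ∫ z, |Φ φ z| ∂μ = ∫ z, |φ.1 z| ∂μ := by
    intro φ
    apply integral_congr_ae
    filter_upwards [hΦ φ] with z hz
    rw [hz]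
  have hker : LinearMap.ker Φ ≤ LinearMap.ker T := by
    intro φ hφ
    rw [LinearMap.mem_ker] at hφ ⊢
    have h1 := hT φ
    rw [← hint φ, hφ] at h1
    have h2 : ∫ z, |(0 : Lp ℝ 2 μ) z| ∂μ = 0 := by
      rw [← integral_zero ℂ ℝ (μ := μ)]
      apply integral_congr_ae
      filter_upwards [Lp.coeFn_zero ℝ 2 μ] with z hz
      rw [hz]
      simp
    rw [h2, mul_zero] at h1
    exact abs_nonpos_iff.mp h1
  let T' : LinearMap.range Φ →ₗ[ℝ] ℝ :=
    ((LinearMap.ker Φ).liftQ T hker) ∘ₗ (Φ.quotKerEquivRange.symm : _ →ₗ[ℝ] _)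
  have hT' : ∀ φ : 𝒞, T' ⟨Φ φ, LinearMap.mem_range_self Φ φ⟩ = T φ := by
    intro φ
    show ((LinearMap.ker Φ).liftQ T hker)
      (Φ.quotKerEquivRange.symm ⟨Φ φ, LinearMap.mem_range_self Φ φ⟩) = T φ
    rw [LinearMap.quotKerEquivRange_symm_apply_image]
    exact Submodule.liftQ_apply _ _ _
  obtain ⟨g, hg1, hg2⟩ := exists_extension_of_le_sublinear (E := Lp ℝ 2 μ)
    ⟨LinearMap.range Φ, T'⟩ (fun x => C * ∫ z, |x z| ∂μ) (by
      intro c hc x
      have : ∫ z, |(c • x) z| ∂μ = c * ∫ z, |x z| ∂μ := by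
        rw [← integral_const_mul]
        apply integral_congr_ae
        filter_upwards [Lp.coeFn_smul c x] with z hz
        rw [hz, Pi.smul_apply, smul_eq_mul, abs_mul, abs_of_pos hc]
      rw [this]
      ring) (by
      intro x y
      rw [← mul_add]
      apply mul_le_mul_of_nonneg_left _ hC
      rw [← integral_add (L2int μ x).abs (L2int μ y).abs]
      apply integral_mono_ae (L2int μ (x + y)).abs ((L2int μ x).abs.add (L2int μ y).abs)
      filter_upwards [Lp.coeFn_add x y] with z hz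
      simp only [Pi.add_apply] at hz ⊢
      rw [hz]
      exact abs_add_le _ _) (by
      rintro ⟨x, φ, rfl⟩
      have h1 : T' ⟨Φ φ, LinearMap.mem_range_self Φ φ⟩ = T φ := hT' φ
      show T' ⟨Φ φ, _⟩ ≤ C * ∫ z, |Φ φ z| ∂μ
      rw [hint φ]
      exact (h1.trans_le (le_abs_self _)).trans (hT φ))
  have hgΦ : ∀ φ : 𝒞, g (Φ φ) = T φ := by
    intro φ
    have h1 := hg1 ⟨Φ φ, LinearMap.mem_range_self Φ φ⟩
    exact h1.trans (hT' φ)
  have hgb : ∀ x, ‖g x‖ ≤ C * K * ‖x‖ := by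
    intro x
    have h1 : ∀ x, g x ≤ C * K * ‖x‖ := by
      intro x
      calc g x ≤ C * ∫ z, |x z| ∂μ := hg2 x
        _ ≤ C * (K * ‖x‖) := mul_le_mul_of_nonneg_left (hK x) hC
        _ = C * K * ‖x‖ := by ring
    rw [Real.norm_eq_abs, abs_le]
    constructor
    · have h2 := h1 (-x)
      rw [map_neg, norm_neg] at h2
      linarith
    · exact h1 x
  obtain ⟨G, hG⟩ : ∃ G : Lp ℝ 2 μ →L[ℝ] ℝ, ∀ x, G x = g x := ⟨g.mkContinuous (C * K) hgb, fun _ => rfl⟩
  obtain ⟨y, hy⟩ : ∃ y : Lp ℝ 2 μ, ∀ x, ∫ z, x z * y z ∂μ = g x := by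
    refine ⟨(InnerProductSpace.toDual ℝ (Lp ℝ 2 μ)).symm G, fun x => ?_⟩
    have h1 := InnerProductSpace.toDual_symm_apply (𝕜 := ℝ) (E := Lp ℝ 2 μ) (x := x) (y := G)
    rw [L2.inner_def] at h1
    rw [← hG x, ← h1]
    apply integral_congr_ae
    refine ae_of_all _ fun z => ?_
    simp [RCLike.inner_apply]
  have hyb := bound_of_dual μ y C hC (fun x => (hy x).trans_le (hg2 x))
  have hym : Measurable (fun z => y z) := (Lp.stronglyMeasurable y).measurable
  refine ⟨fun z => if |y z| ≤ C then y z else 0, ?_, ?_, ?_⟩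
  · exact Measurable.ite (measurableSet_le hym.abs measurable_const) hym measurable_const
  · intro z
    dsimp only
    split_ifs with h1
    · exact h1
    · rw [abs_zero]
      exact hC
  · intro φ
    rw [← hgΦ φ, ← hy (Φ φ)]
    apply integral_congr_ae
    filter_upwards [hyb, hΦ φ] with z hz1 hz2
    rw [hz2, if_pos hz1]

end riesz

/-- the test functions -/
def Tst (D : Set ℂ) : Submodule ℝ (ℂ → ℝ) where
  carrier := {φ | ContDiff ℝ 1 φ ∧ HasCompactSupport φ ∧ tsupport φ ⊆ D}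
  add_mem' := by
    rintro a b ⟨a1, a2, a3⟩ ⟨b1, b2, b3⟩
    refine ⟨a1.add b1, a2.add b2, ?_⟩
    refine (closure_minimal ?_ ((isClosed_tsupport a).union (isClosed_tsupport b))).trans
      (union_subset a3 b3)
    intro z hz
    by_contra hcon
    rw [mem_union, not_or] at hcon
    apply hz
    show a z + b z = 0
    rw [image_eq_zero_of_notMem_tsupport hcon.1, image_eq_zero_of_notMem_tsupport hcon.2, add_zero]
  zero_mem' := by
    refine ⟨contDiff_const, HasCompactSupport.zero, ?_⟩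
    have : tsupport (0 : ℂ → ℝ) = ∅ := by
      rw [tsupport_eq_empty_iff]
    rw [this]
    exact empty_subset _
  smul_mem' := by
    rintro c a ⟨a1, a2, a3⟩
    refine ⟨contDiff_const.smul a1, ?_, ?_⟩
    · exact a2.smul_left (f := fun _ => c)
    · refine (closure_mono ?_).trans a3
      intro z hz hz0
      apply hz
      show c • a z = 0
      rw [hz0, smul_zero]

theorem main : S_ABS → S_RN := by
  intro _ μ _ E z₁ r' C hr' hE hbd
  have hdiff : ∀ φ ∈ Tst (ball z₁ r'), ∀ z, DifferentiableAt ℝ φ z :=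
    fun φ hφ z => (hφ.1.differentiable (by norm_num)) z
  have hi : ∀ φ ∈ Tst (ball z₁ r'), ∀ v : ℂ, Integrable (fun z => fderiv ℝ φ z v)
      (volume.restrict E) := by
    intro φ hφ v
    have hc : Continuous (fun z => fderiv ℝ φ z v) :=
      (hφ.1.continuous_fderiv (by norm_num)).clm_apply continuous_const
    have hs : HasCompactSupport (fun z => fderiv ℝ φ z v) := by
      have h1 := hφ.2.1.fderiv (𝕜 := ℝ)
      refine h1.mono ?_
      intro z hz hz0
      apply hz
      show fderiv ℝ φ z v = 0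
      rw [hz0]
      rfl
    exact (hc.integrable_of_hasCompactSupport hs).restrict
  let T : ℂ → (Tst (ball z₁ r') →ₗ[ℝ] ℝ) := fun v =>
    { toFun := fun φ => - ∫ z in E, fderiv ℝ φ.1 z v
      map_add' := by
        intro a b
        have h1 : ∀ z, fderiv ℝ (a.1 + b.1) z v = fderiv ℝ a.1 z v + fderiv ℝ b.1 z v := by
          intro z
          rw [fderiv_add (hdiff _ a.2 z) (hdiff _ b.2 z)]
          rfl
        have h2 : (a + b).1 = a.1 + b.1 := rfl
        rw [h2]
        simp_rw [h1]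
        rw [integral_add (hi _ a.2 v) (hi _ b.2 v)]
        ring
      map_smul' := by
        intro c a
        have h1 : ∀ z, fderiv ℝ (c • a.1) z v = c * fderiv ℝ a.1 z v := by
          intro z
          rw [fderiv_const_smul (hdiff _ a.2 z)]
          rfl
        have h2 : (c • a).1 = c • a.1 := rfl
        rw [h2]
        simp_rw [h1]
        rw [integral_const_mul]
        simp }
  have hT : ∀ v (φ : Tst (ball z₁ r')), T v φ = - ∫ z in E, fderiv ℝ φ.1 z v := fun _ _ => rfl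
  have hmem : ∀ φ ∈ Tst (ball z₁ r'), MemLp φ 2 μ :=
    fun φ hφ => hφ.1.continuous.memLp_of_hasCompactSupport hφ.2.1
  have hbT : ∀ v : ℂ, ‖v‖ = 1 → ∀ φ : Tst (ball z₁ r'), |T v φ| ≤ |C| * ∫ z, |φ.1 z| ∂μ := by
    intro v hv φ
    rw [hT, abs_neg]
    refine (hbd φ.1 φ.2.1 φ.2.2.1 φ.2.2.2 v).trans ?_
    rw [hv, mul_one]
    exact mul_le_mul_of_nonneg_right (le_abs_self C) (integral_nonneg fun z => abs_nonneg _)
  obtain ⟨p1, hp1m, hp1b, hp1⟩ := repr μ _ hmem (T 1) |C| (abs_nonneg C) (hbT 1 (by simp))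
  obtain ⟨p2, hp2m, hp2b, hp2⟩ := repr μ _ hmem (T Complex.I) |C| (abs_nonneg C)
    (hbT Complex.I (by simp))
  refine ⟨fun z => (p1 z : ℂ) - (p2 z : ℂ) * Complex.I, 2 * |C|, ?_, ?_, ?_⟩
  · exact (Complex.measurable_ofReal.comp hp1m).sub
      ((Complex.measurable_ofReal.comp hp2m).mul_const _)
  · intro z
    refine (norm_sub_le _ _).trans ?_
    rw [norm_mul, Complex.norm_I, mul_one, Complex.norm_real, Complex.norm_real,
      Real.norm_eq_abs, Real.norm_eq_abs]
    linarith [hp1b z, hp2b z]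
  · intro φ h1 h2 h3 v
    have hφ : φ ∈ Tst (ball z₁ r') := ⟨h1, h2, h3⟩
    have e1 := hp1 ⟨φ, hφ⟩
    have e2 := hp2 ⟨φ, hφ⟩
    rw [hT] at e1 e2
    dsimp only at e1 e2
    have hv : ∀ z, fderiv ℝ φ z v = v.re * fderiv ℝ φ z 1 + v.im * fderiv ℝ φ z Complex.I := by
      intro z
      have h4 : v = v.re • (1 : ℂ) + v.im • Complex.I := by
        apply Complex.ext <;> simp
      conv_lhs => rw [h4, map_add, map_smul, map_smul]
      rfl
    simp_rw [hv]
    rw [integral_add ((hi φ hφ 1).const_mul _) ((hi φ hφ Complex.I).const_mul _),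
      integral_const_mul, integral_const_mul]
    have hφi : Integrable φ μ := (hmem φ hφ).integrable one_le_two
    have i1 : Integrable (fun z => φ z * p1 z) μ :=
      hφi.mul_bdd hp1m.aestronglyMeasurable (c := |C|)
        (ae_of_all _ fun z => by rw [Real.norm_eq_abs]; exact hp1b z)
    have i2 : Integrable (fun z => φ z * p2 z) μ :=
      hφi.mul_bdd hp2m.aestronglyMeasurable (c := |C|)
        (ae_of_all _ fun z => by rw [Real.norm_eq_abs]; exact hp2b z)
    have h5 : ∀ z, φ z * (((p1 z : ℂ) - (p2 z : ℂ) * Complex.I) * v).re =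
        v.re * (φ z * p1 z) + v.im * (φ z * p2 z) := by
      intro z
      simp [Complex.mul_re, Complex.sub_re, Complex.sub_im]
      ring
    simp_rw [h5]
    rw [integral_add (i1.const_mul _) (i2.const_mul _), integral_const_mul, integral_const_mul,
      ← e1, ← e2]
    ring

end Pool.Agent.W577.CQ

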